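import Pool.Agent.W_eea520p_h56.Ind
import Pool.Agent.W_eea520p_h56.Line

/-!
# Twists by unimodular functions: the abstract part (MP_eea520_nt)

`E` is the functional of the mean values and `Ψ` the functional of the mean values of the products with
a function with values in `[-1, 1]`. The only fact which is used is `|Ψ (f ^ 2)| ≤ E (f ^ 2)`.
-/

set_option autoImplicit false

namespace Pool.Agent.EEAP

section functional

variable {B : Type} [CommRing B] {E Ψ : B →+ ℤ}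

/-- The value of an additive functional at the square of an integral combination. -/
theorem tw_quad (F : B →+ ℤ) (a b : ℤ) (f g : B) :
    F ((a • f + b • g) * (a • f + b • g)) =
      a ^ 2 * F (f * f) + 2 * a * b * F (f * g) + b ^ 2 * F (g * g) := by
  have h1 : (a • f + b • g) * (a • f + b • g) =
      (a ^ 2) • (f * f) + (2 * a * b) • (f * g) + (b ^ 2) • (g * g) := by
    simp only [zsmul_eq_mul]
    push_cast
    ring
  rw [h1, map_add, map_add, map_zsmul, map_zsmul, map_zsmul, smul_eq_mul, smul_eq_mul,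
    smul_eq_mul]

theorem tw_nonneg (hΨ : ∀ f, |Ψ (f * f)| ≤ E (f * f)) (f : B) : 0 ≤ E (f * f) :=
  (abs_nonneg _).trans (hΨ f)

/-- Polarisation: `Ψ (u ^ 2) ≤ E (u ^ 2)` for `u = a f + b g` and `- Ψ (v ^ 2) ≤ E (v ^ 2)` for
`v = a f - b g`. -/
theorem tw_cs (hΨ : ∀ f, |Ψ (f * f)| ≤ E (f * f)) (a b : ℤ) (f g : B) :
    2 * a * b * Ψ (f * g) ≤ a ^ 2 * E (f * f) + b ^ 2 * E (g * g) := by
  have h1 := (abs_le.1 (hΨ (a • f + b • g))).2
  have h2 := (abs_le.1 (hΨ (a • f + (-b) • g))).1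
  rw [tw_quad, tw_quad] at h1 h2
  nlinarith

/-- The functional `Ψ` respects the equality almost everywhere. -/
theorem tw_ae (hΨ : ∀ f, |Ψ (f * f)| ≤ E (f * f)) {f g : B} (h : Ae E f g) : Ψ f = Ψ g := by
  have h0 : E ((f - g) * (f - g)) = 0 := (ae_iff (tw_nonneg hΨ)).1 h
  have h1 : ∀ N : ℤ, 2 * N * Ψ (f - g) ≤ E (1 * 1) := by
    intro N
    have h2 := tw_cs hΨ N 1 (f - g) 1
    rw [h0, mul_one (f - g)] at h2
    linarith
  have h2 : Ψ (f - g) = 0 := by
    by_contra hne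
    have h3 := h1 ((E (1 * 1) + 1) * Ψ (f - g))
    have h4 : 1 ≤ (Ψ (f - g)) ^ 2 := by
      have : 0 < (Ψ (f - g)) ^ 2 := by positivity
      linarith
    have h5 := tw_nonneg hΨ (1 : B)
    nlinarith
  rw [map_sub] at h2
  linarith

/-- If `Ψ F = 1 = E (F ^ 2)` then `Ψ G = E (F G)` for all `G`. -/
theorem tw_rep (hΨ : ∀ f, |Ψ (f * f)| ≤ E (f * f)) (h1 : E 1 = 1) {F : B} (hF : E (F * F) = 1)
    (hF1 : Ψ F = 1) (G : B) : Ψ G = E (F * G) := by
  have key : ∀ N : ℤ, 2 * N * (Ψ G - E (F * G)) ≤ E (G * G) := by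
    intro N
    have h2 := tw_cs hΨ 1 N (N • F + (1 : ℤ) • G) 1
    have h11 : E ((1 : B) * 1) = 1 := by
      rw [mul_one]
      exact h1
    rw [tw_quad, mul_one (N • F + (1 : ℤ) • G), h11, map_add, map_zsmul, map_zsmul, hF, hF1,
      smul_eq_mul, smul_eq_mul] at h2
    nlinarith
  by_contra hne
  have hD : Ψ G - E (F * G) ≠ 0 := sub_ne_zero.2 hne
  have h3 := key ((E (G * G) + 1) * (Ψ G - E (F * G)))
  have h4 : 1 ≤ (Ψ G - E (F * G)) ^ 2 := by
    have : 0 < (Ψ G - E (F * G)) ^ 2 := by positivity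
    linarith
  have h5 := tw_nonneg hΨ G
  nlinarith

/-- `Ψ F = 1` is impossible if `E F = 0`, `E (F ^ 2) = 1` and `E (F ^ 4) ≥ 2`: by `tw_rep`
`|E (F g ^ 2)| ≤ E (g ^ 2)` for all `g`; take `g = 1 ± F` and `g = 1 ± (1 + q) F + F ^ 2`,
`q = E (F ^ 4)`. -/
theorem tw_ne_one (hΨ : ∀ f, |Ψ (f * f)| ≤ E (f * f)) (h1 : E 1 = 1) {F : B} (h0 : E F = 0)
    (hF : E (F * F) = 1) (hq : 2 ≤ E (F * F * (F * F))) : Ψ F ≠ 1 := by
  intro hF1
  have hrep := tw_rep hΨ h1 hF hF1
  have hb : ∀ g, |E (F * (g * g))| ≤ E (g * g) := by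
    intro g
    rw [← hrep]
    exact hΨ g
  have e1 : ∀ x : ℤ, E ((1 + x • F) * (1 + x • F)) = 1 + x ^ 2 := by
    intro x
    have h2 : (1 + x • F) * (1 + x • F) = 1 + (2 * x) • F + (x ^ 2) • (F * F) := by
      simp only [zsmul_eq_mul]
      push_cast
      ring
    rw [h2, map_add, map_add, map_zsmul, map_zsmul, h0, hF, h1, smul_eq_mul, smul_eq_mul]
    ring
  have e2 : ∀ x : ℤ, E (F * ((1 + x • F) * (1 + x • F))) = 2 * x + x ^ 2 * E (F * F * F) := by
    intro x
    have h2 : F * ((1 + x • F) * (1 + x • F)) = F + (2 * x) • (F * F) + (x ^ 2) • (F * F * F) := by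
      simp only [zsmul_eq_mul]
      push_cast
      ring
    rw [h2, map_add, map_add, map_zsmul, map_zsmul, h0, hF, smul_eq_mul, smul_eq_mul]
    ring
  have h3 : E (F * F * F) = 0 := by
    have h4 := (abs_le.1 (hb (1 + (1 : ℤ) • F))).2
    have h5 := (abs_le.1 (hb (1 + (-1 : ℤ) • F))).1
    rw [e1, e2] at h4 h5
    linarith
  set q := E (F * F * (F * F)) with hqd
  set c := E (F * F * F * (F * F)) with hcd
  have e3 : ∀ x : ℤ, E ((1 + x • F + F * F) * (1 + x • F + F * F)) = x ^ 2 + 3 + q := by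
    intro x
    have h2 : (1 + x • F + F * F) * (1 + x • F + F * F) =
        1 + (2 * x) • F + (x ^ 2 + 2) • (F * F) + (2 * x) • (F * F * F) + F * F * (F * F) := by
      simp only [zsmul_eq_mul]
      push_cast
      ring
    rw [h2, map_add, map_add, map_add, map_add, map_zsmul, map_zsmul, map_zsmul, h0, hF, h1, h3,
      ← hqd]
    simp only [smul_eq_mul]
    ring
  have e4 : ∀ x : ℤ, E (F * ((1 + x • F + F * F) * (1 + x • F + F * F))) =
      2 * x * (1 + q) + c := by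
    intro x
    have h2 : F * ((1 + x • F + F * F) * (1 + x • F + F * F)) =
        F + (2 * x) • (F * F) + (x ^ 2 + 2) • (F * F * F) + (2 * x) • (F * F * (F * F)) +
          F * F * F * (F * F) := by
      simp only [zsmul_eq_mul]
      push_cast
      ring
    rw [h2, map_add, map_add, map_add, map_add, map_zsmul, map_zsmul, map_zsmul, h0, hF, h3,
      ← hqd, ← hcd]
    simp only [smul_eq_mul]
    ring
  have h4 := (abs_le.1 (hb (1 + (1 + q) • F + F * F))).2
  have h5 := (abs_le.1 (hb (1 + (-(1 + q)) • F + F * F))).1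
  rw [e3, e4] at h4 h5
  nlinarith

/-- So `Ψ F = 0`: `|Ψ F| ≤ 1` by `tw_cs`, and `tw_ne_one` for `Ψ` and for `- Ψ`. -/
theorem tw_zero (hΨ : ∀ f, |Ψ (f * f)| ≤ E (f * f)) (h1 : E 1 = 1) {F : B} (h0 : E F = 0)
    (hF : E (F * F) = 1) (hq : 2 ≤ E (F * F * (F * F))) : Ψ F = 0 := by
  have h2 := tw_ne_one hΨ h1 h0 hF hq
  have h3 : (-Ψ) F ≠ 1 := by
    refine tw_ne_one (Ψ := -Ψ) (fun f => ?_) h1 h0 hF hq
    rw [AddMonoidHom.neg_apply, abs_neg]
    exact hΨ f
  rw [AddMonoidHom.neg_apply] at h3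
  have h4 := tw_cs hΨ 1 1 F 1
  have h5 := tw_cs hΨ 1 (-1) F 1
  have h11 : E ((1 : B) * 1) = 1 := by
    rw [mul_one]
    exact h1
  rw [hF, mul_one F, h11] at h4 h5
  omega

end functional

section families

variable {B : Type} [CommRing B] {E Ψ : B →+ ℤ} {r : ℕ} {I : Fin r → Type} {b : ∀ k, Bas (I k)}
  {V : ∀ k, I k → B}

/-- The fourth moment of a nontrivial product over `S` is at least `3`. -/
theorem tw_four (P : ∀ k, Pie (b k)) (hV : ∀ k, Fam E (b k) (V k)) (h1 : E 1 = 1)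
    (S : Finset (Fin r))
    (hS : ∀ i : ∀ k, I k, (∀ k, k ∉ S → i k = (b k).z) → i ≠ (fun k => (b k).z) →
      E (∏ k, V k (i k)) = 0) (i : ∀ k, I k) (hi : ∃ k ∈ S, i k ≠ (b k).z) :
    3 ≤ E ((∏ k ∈ S, V k (i k)) * (∏ k ∈ S, V k (i k)) *
      ((∏ k ∈ S, V k (i k)) * ∏ k ∈ S, V k (i k))) := by
  classical
  have hind : ∀ i' : ∀ l : {l // l ∈ S}, I l.1, i' ≠ (fun l : {l // l ∈ S} => (b l.1).z) →
      E (∏ l : {l // l ∈ S}, V l.1 (i' l)) = 0 := by
    intro i' hi'
    have hz := hS (fun l => if h : l ∈ S then i' ⟨l, h⟩ else (b l).z)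
      (fun l hl => dif_neg hl) (fun hc => hi' (funext fun l => by
        have := congrFun hc l.1
        simp only [l.2, dif_pos] at this
        exact this))
    rw [← hz]
    congr 1
    have hsub : ∏ l ∈ S, V l (if h : l ∈ S then i' ⟨l, h⟩ else (b l).z)
        = ∏ l, V l (if h : l ∈ S then i' ⟨l, h⟩ else (b l).z) :=
      Finset.prod_subset (Finset.subset_univ S) fun l _ hl => by
        rw [dif_neg hl]
        exact (hV l).one
    rw [← hsub, ← Finset.prod_coe_sort S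
      (fun l => V l (if h : l ∈ S then i' ⟨l, h⟩ else (b l).z))]
    refine Finset.prod_congr rfl fun l _ => ?_
    simp only [l.2, dif_pos]
  have hF : Fam E (Bas.pi fun l : {l // l ∈ S} => b l.1)
      (fun i' : ∀ l : {l // l ∈ S}, I l.1 => ∏ l, V l.1 (i' l)) :=
    Fam.pi (fun l => hV l.1) h1 hind
  have h4 := hF.four (fun l : {l // l ∈ S} => i l.1)
  have h5 : ((Bas.pi fun l : {l // l ∈ S} => b l.1).N (fun l : {l // l ∈ S} => i l.1)
      (fun l : {l // l ∈ S} => i l.1)).sum (fun _ a => a ^ 2)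
      = ∏ l : {l // l ∈ S}, ((b l.1).N (i l.1) (i l.1)).sum fun _ a => a ^ 2 :=
    four_pi (fun l : {l // l ∈ S} => b l.1) (fun l : {l // l ∈ S} => i l.1)
  rw [h5, Finset.prod_coe_sort S (fun l => V l (i l)),
    Finset.prod_coe_sort S (fun l => ((b l).N (i l) (i l)).sum fun _ a => a ^ 2)] at h4
  rw [h4]
  have hge : ∀ l, 1 ≤ ((b l).N (i l) (i l)).sum fun _ a => a ^ 2 := by
    intro l
    by_cases hl : i l = (b l).z
    · rw [hl, (b l).one_mul, Finsupp.sum_single_index] <;> norm_num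
    · exact le_trans (by norm_num) ((P l).four_ge (hV l) hl)
  obtain ⟨k, hk, hkz⟩ := hi
  rw [← Finset.mul_prod_erase S _ hk]
  have h6 : 1 ≤ ∏ l ∈ S.erase k, ((b l).N (i l) (i l)).sum fun _ a => a ^ 2 := by
    have h7 : 0 < ∏ l ∈ S.erase k, ((b l).N (i l) (i l)).sum fun _ a => a ^ 2 :=
      Finset.prod_pos fun l _ => by
        have := hge l
        omega
    omega
  have h8 := (P k).four_ge (hV k) hkz
  nlinarith

/-- THE TWIST. `Ψ` is zero on the nontrivial products over `S` (`tw_zero`), so `Ψ = (Ψ 1) E` on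
`SP V S`, and then on all products (`sp_ae`, `tw_ae`). -/
theorem tw_val (hΨ : ∀ f, |Ψ (f * f)| ≤ E (f * f)) (h1 : E 1 = 1) (P : ∀ k, Pie (b k))
    (hV : ∀ k, Fam E (b k) (V k)) (S : Finset (Fin r))
    (hS : ∀ i : ∀ k, I k, (∀ k, k ∉ S → i k = (b k).z) → i ≠ (fun k => (b k).z) →
      E (∏ k, V k (i k)) = 0)
    (hm : ∀ k, k ∉ S → ∃ k' ∈ S, ∀ i, ∃ i', Ae E (V k i) (V k' i')) (i : ∀ k, I k) :
    Ψ (∏ k, V k (i k)) = Ψ 1 * E (∏ k, V k (i k)) := by
  classical
  obtain ⟨g, hg, hg'⟩ := sp_ae hV S hm i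
  rw [tw_ae hΨ hg', hg'.val]
  refine AddSubgroup.closure_induction (p := fun g _ => Ψ g = Ψ 1 * E g) ?_ ?_ ?_ ?_ hg
  · rintro _ ⟨i, rfl⟩
    show Ψ (∏ k ∈ S, V k (i k)) = Ψ 1 * E (∏ k ∈ S, V k (i k))
    by_cases hi : ∃ k ∈ S, i k ≠ (b k).z
    · have h3 : E (∏ k ∈ S, V k (i k)) = 0 := by
        rw [← hS (fun k => if k ∈ S then i k else (b k).z) (fun k hk => if_neg hk) (fun hc => by
          obtain ⟨k, hk, hkz⟩ := hi
          have h4 := congrFun hc k
          simp only [hk, if_true] at h4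
          exact hkz h4)]
        congr 1
        rw [← Finset.prod_subset (Finset.subset_univ S) (fun k _ hk => by
          rw [if_neg hk]
          exact (hV k).one)]
        refine Finset.prod_congr rfl fun k hk => ?_
        rw [if_pos hk]
      rw [h3, mul_zero]
      exact tw_zero hΨ h1 h3 (sp_sq hV h1 S hS i)
        (le_trans (by norm_num) (tw_four P hV h1 S hS i hi))
    · push Not at hi
      have h3 : ∏ k ∈ S, V k (i k) = 1 := Finset.prod_eq_one fun k hk => by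
        rw [hi k hk]
        exact (hV k).one
      rw [h3, h1, mul_one]
  · rw [map_zero, map_zero, mul_zero]
  · intro x y _ _ hx hy
    rw [map_add, map_add, hx, hy]
    ring
  · intro x _ hx
    rw [map_neg, map_neg, hx]
    ring

end families

end Pool.Agent.EEAP
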