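import Pool.Agent.W_eea520p_h56.Defs

/-!
# Twisted Euler products of tuples of systems (MP_eea520_nt): definitions
-/

set_option autoImplicit false

namespace Pool.Agent.EEAP

open Filter Topology Pool.Agent.EEA520 Pool.Agent.EEAN

variable {r : ℕ} {n : Fin r → ℕ}

/-- Near the point `1`, the Euler product of `π_1 × ⋯ × π_r` for the characters `m i`, twisted by the
function `e` on the primes, is, in the half plane `Re s > 1`, equal to `g`. -/
def IsLT (π : (i : Fin r) → GSys (n i)) (m : (i : Fin r) → Wt (n i) →₀ ℤ) (e : Pr → ℂ)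
    (g : ℂ → ℂ) : Prop :=
  ∀ᶠ s in 𝓝[{s | 1 < s.re}] (1 : ℂ),
    HasProd (fun p : Pr => factorP (fun i => π i p) m (e p * ((p : ℕ) : ℂ) ^ (-s))) (g s)

/-- The Euler product of `π_1 × ⋯ × π_r` for the characters `m i`, twisted by `e`, is meromorphic at
the point `1`. -/
def MeroAtT (π : (i : Fin r) → GSys (n i)) (m : (i : Fin r) → Wt (n i) →₀ ℤ) (e : Pr → ℂ) :
    Prop :=
  ∃ g : ℂ → ℂ, MeromorphicAt g 1 ∧ IsLT π m e g

/-- The Euler product of `π_1 × ⋯ × π_r` for the characters `m i`, twisted by `e`, is meromorphic at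
the point `1`, with a pole of order `k` if `k > 0`, a zero of order `-k` if `k < 0`, and it is
holomorphic and not zero there if `k = 0`. -/
def PoleOrderT (π : (i : Fin r) → GSys (n i)) (m : (i : Fin r) → Wt (n i) →₀ ℤ) (e : Pr → ℂ)
    (k : ℤ) : Prop :=
  ∃ g : ℂ → ℂ, MeromorphicAt g 1 ∧ meromorphicOrderAt g 1 = ((-k : ℤ) : WithTop ℤ) ∧
    IsLT π m e g

end Pool.Agent.EEAP
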