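import Pool.Agent.W_eea520p_h56.AnB
import Pool.Agent.W_eea520p_h53.TwDefs

/-!
# Twisted Euler products as Euler products of one system (MP_eea520_nt)
-/

set_option autoImplicit false

namespace Pool.Agent.EEAP

open Filter Topology Pool.Agent.EEA520 Pool.Agent.EEAN Pool.Agent.EEAG1

variable {r : ℕ} {n : Fin r → ℕ}

/-- All the parameters, and the value `a` of the twist as the coordinate `c`. -/
def catTU (a : ℂˣ) (t : (i : Fin r) → Torus (n i)) : Torus (∑ i, (n i + 1)) where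
  c := a
  x := (catT t).x

/-- The weights with the exponent `1` at the coordinate `c`. -/
def catWU (w : (i : Fin r) → Wt (n i)) : Wt (∑ i, (n i + 1)) := (1, (catW w).2)

theorem ev_catU (a : ℂˣ) (t : (i : Fin r) → Torus (n i)) (w : (i : Fin r) → Wt (n i)) :
    (catTU a t).ev (catWU w) = a * ∏ i, (t i).ev (w i) := by
  rw [← ev_cat]
  unfold Torus.ev
  have h0 : (catT t).c ^ (catW w).1 = 1 := by
    show (1 : ℂˣ) ^ (0 : ℤ) = 1
    simp
  have h1 : (catTU a t).c ^ (catWU w).1 = a := by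
    show a ^ (1 : ℤ) = a
    simp
  rw [h0, one_mul, h1]
  rfl

theorem catWU_injective : Function.Injective (catWU (r := r) (n := n)) := by
  intro v w h
  apply catW_injective
  refine Prod.ext rfl ?_
  have h2 := congrArg Prod.snd h
  exact h2

/-- The multiplicities on the weights of the twisted tuple. -/
noncomputable def catMU (m : (i : Fin r) → Wt (n i) →₀ ℤ) : Wt (∑ i, (n i + 1)) →₀ ℤ :=
  Finsupp.mapDomain catWU (prodM m)

theorem factor_catU (a : ℂˣ) (t : (i : Fin r) → Torus (n i)) (m : (i : Fin r) → Wt (n i) →₀ ℤ)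
    (q : ℂ) : (catTU a t).factor (catMU m) q = factorP t m ((a : ℂ) * q) := by
  unfold Torus.factor factorP catMU
  rw [Finsupp.prod_mapDomain_index_inj catWU_injective]
  unfold Finsupp.prod
  rw [AnA_support]
  refine Finset.prod_congr rfl fun w _ => ?_
  show (1 - (((catTU a t).ev (catWU w) : ℂˣ) : ℂ) * q) ^ (-(∏ i, m i (w i))) = _
  rw [ev_catU, Units.val_mul, Units.coe_prod]
  congr 2
  ring

/-- The system of the twisted tuple. -/
def catU (e : Pr → ℂˣ) (π : (i : Fin r) → GSys (n i)) : GSys (∑ i, (n i + 1)) :=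
  fun p => catTU (e p) fun i => π i p

theorem tempered_catU {e : Pr → ℂˣ} (he : ∀ p, ‖((e p : ℂˣ) : ℂ)‖ = 1)
    {π : (i : Fin r) → GSys (n i)} (hπ : ∀ i, Tempered (π i)) : Tempered (catU e π) := by
  intro p
  exact ⟨he p, (tempered_cat hπ p).2⟩

theorem isL_catU (e : Pr → ℂˣ) (π : (i : Fin r) → GSys (n i)) (m : (i : Fin r) → Wt (n i) →₀ ℤ)
    (g : ℂ → ℂ) : IsL (catU e π) (catMU m) 1 g ↔ IsLT π m (fun p => ((e p : ℂˣ) : ℂ)) g := by
  unfold IsL IsLT
  have h : ∀ s : ℂ, (fun p : Pr => (catU e π p).factor (catMU m) (((p : ℕ) : ℂ) ^ (-s))) =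
      fun p : Pr => factorP (fun i => π i p) m (((e p : ℂˣ) : ℂ) * ((p : ℕ) : ℂ) ^ (-s)) := by
    intro s
    funext p
    exact factor_catU (e p) (fun i => π i p) m _
  simp only [h]

theorem poleOrder_catU (e : Pr → ℂˣ) (π : (i : Fin r) → GSys (n i))
    (m : (i : Fin r) → Wt (n i) →₀ ℤ) (k : ℤ) :
    PoleOrder (catU e π) (catMU m) 1 k ↔ PoleOrderT π m (fun p => ((e p : ℂˣ) : ℂ)) k := by
  unfold PoleOrder PoleOrderT
  simp only [isL_catU]

theorem meroAt_catU (e : Pr → ℂˣ) (π : (i : Fin r) → GSys (n i))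
    (m : (i : Fin r) → Wt (n i) →₀ ℤ) :
    MeroAt (catU e π) (catMU m) 1 ↔ MeroAtT π m (fun p => ((e p : ℂˣ) : ℂ)) := by
  unfold MeroAt MeroAtT
  simp only [isL_catU]

theorem trc_catU (e : Pr → ℂˣ) (π : (i : Fin r) → GSys (n i)) (m : (i : Fin r) → Wt (n i) →₀ ℤ)
    (p : Pr) : trc (catU e π) (catMU m) p = ((e p : ℂˣ) : ℂ) * ∏ i, trc (π i) (m i) p := by
  unfold trc catMU
  rw [Finsupp.sum_mapDomain_index_inj catWU_injective]
  unfold Finsupp.sum
  rw [AnA_support, Finset.prod_univ_sum, Finset.mul_sum]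
  refine Finset.sum_congr rfl fun w _ => ?_
  have h1 : (catU e π p).ev (catWU w) = e p * ∏ i, (π i p).ev (w i) :=
    ev_catU (e p) (fun i => π i p) w
  show (((∏ i, m i (w i) : ℤ)) : ℂ) * (((catU e π p).ev (catWU w) : ℂˣ) : ℂ) =
    ((e p : ℂˣ) : ℂ) * ∏ i, ((m i (w i) : ℤ) : ℂ) * (((π i p).ev (w i) : ℂˣ) : ℂ)
  rw [h1, Units.val_mul, Units.coe_prod, Finset.prod_mul_distrib]
  push_cast
  ring

theorem exists_unit {e : Pr → ℂ} (he : ∀ p, ‖e p‖ = 1) :
    ∃ u : Pr → ℂˣ, (fun p => ((u p : ℂˣ) : ℂ)) = e := by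
  have h0 : ∀ p, e p ≠ 0 := fun p h => by
    have h1 := he p
    rw [h, norm_zero] at h1
    exact zero_ne_one h1
  exact ⟨fun p => Units.mk0 (e p) (h0 p), funext fun p => Units.val_mk0 (h0 p)⟩

theorem exists_poleOrderT {π : (i : Fin r) → GSys (n i)} (hπ : ∀ i, Tempered (π i)) {e : Pr → ℂ}
    (he : ∀ p, ‖e p‖ = 1) {m : (i : Fin r) → Wt (n i) →₀ ℤ} (h : MeroAtT π m e) :
    ∃ k : ℤ, PoleOrderT π m e k := by
  obtain ⟨u, rfl⟩ := exists_unit he
  have h1 := (meroAt_catU u π m).2 h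
  rw [← pt_zero] at h1
  obtain ⟨k, hk⟩ := exists_poleOrder (tempered_catU he hπ) h1
  rw [pt_zero] at hk
  exact ⟨k, (poleOrder_catU u π m k).1 hk⟩

/-- The order of a twisted Euler product with real traces `g` is the order of the function
`g p * Re (e p)`. -/
theorem ord_of_poleOrderT {π : (i : Fin r) → GSys (n i)} (hπ : ∀ i, Tempered (π i)) {e : Pr → ℂ}
    (he : ∀ p, ‖e p‖ = 1) {m : (i : Fin r) → Wt (n i) →₀ ℤ} {k : ℤ} {g : Pr → ℝ}
    (hg : ∀ p, ∏ i, trc (π i) (m i) p = (g p : ℂ)) (h : PoleOrderT π m e k) :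
    Ord (fun p => g p * (e p).re) k := by
  obtain ⟨u, rfl⟩ := exists_unit he
  have h1 : PoleOrder (catU u π) (catMU m) (pt 0) k := by
    rw [pt_zero]
    exact (poleOrder_catU u π m k).2 h
  have h2 := ord_of_poleOrder (tempered_catU he hπ) h1
  have h3 : tre (catU u π) (catMU m) 0 = fun p => g p * (((u p : ℂˣ) : ℂ)).re := by
    funext p
    rw [tre_eq]
    have h4 : tcx (catU u π) (catMU m) p = ((u p : ℂˣ) : ℂ) * (g p : ℂ) := by
      rw [← hg p, ← trc_catU]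
      rfl
    have h5 : (((p : ℕ) : ℂ) ^ (-(((0 : ℝ) : ℂ) * Complex.I))) = 1 := by simp
    rw [h4, h5, mul_one, mul_comm, Complex.re_ofReal_mul]
  rw [h3] at h2
  exact h2

end Pool.Agent.EEAP
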