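import Pool.Agent.W_eea520p_h56.AnF
import Pool.Agent.W_eea520p_h53.TwAn

/-!
# The functional of a twist (MP_eea520_nt)
-/

set_option autoImplicit false

namespace Pool.Agent.EEAP

open Filter Topology Pool.Agent.EEA520 Pool.Agent.EEAN Pool.Agent.EEAG1

variable {r : ℕ} {n : Fin r → ℕ}

theorem bdP_mul {f g : Pr → ℝ} (hf : BdP f) (hg : BdP g) : BdP fun p => f p * g p := by
  obtain ⟨C, hC⟩ := hf
  obtain ⟨D, hD⟩ := hg
  refine ⟨C * D, fun p => ?_⟩
  rw [abs_mul]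
  exact mul_le_mul (hC p) (hD p) (abs_nonneg _) ((abs_nonneg _).trans (hC p))

private theorem psi_ord {π : (i : Fin r) → GSys (n i)} (hπ : ∀ i, Tempered (π i)) {c : Pr → ℝ}
    (hc : BdP c)
    (h : ∀ μ : (i : Fin r) → Dm (n i), ∃ k : ℤ, Ord (fun p => (∏ i, vb π i (μ i)).1 p * c p) k)
    (f : BB π) : ∃ k : ℤ, Ord (fun p => f.1 p * c p) k := by
  have hf := bb_span hπ f
  induction hf using AddSubgroup.closure_induction with
  | mem x hx =>
    obtain ⟨μ, rfl⟩ := hx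
    exact h μ
  | zero =>
    refine ⟨0, ?_⟩
    have h1 : (fun p => (0 : BB π).1 p * c p) = fun _ => 0 := by
      funext p
      show (0 : ℝ) * c p = 0
      rw [zero_mul]
    rw [h1]
    exact ord_zero
  | add a b _ _ ha hb =>
    obtain ⟨k, hk⟩ := ha
    obtain ⟨l, hl⟩ := hb
    refine ⟨k + l, ?_⟩
    have h1 : (fun p => (a + b).1 p * c p) = (fun p => a.1 p * c p) + fun p => b.1 p * c p := by
      funext p
      show (a.1 p + b.1 p) * c p = a.1 p * c p + b.1 p * c p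
      rw [add_mul]
    rw [h1]
    exact Ord.add (bdP_mul (bb_bd hπ a) hc) (bdP_mul (bb_bd hπ b) hc) hk hl
  | neg a _ ha =>
    obtain ⟨k, hk⟩ := ha
    refine ⟨-k, ?_⟩
    have h1 : (fun p => (-a).1 p * c p) = -(fun p => a.1 p * c p) := by
      funext p
      show (-a.1 p) * c p = -(a.1 p * c p)
      rw [neg_mul]
    rw [h1]
    exact Ord.neg hk

/-- Every `f c` has an order, it is unique, so it is additive in `f`. -/
theorem exists_Psi {π : (i : Fin r) → GSys (n i)} (hπ : ∀ i, Tempered (π i)) {c : Pr → ℝ}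
    (hc : BdP c)
    (h : ∀ μ : (i : Fin r) → Dm (n i), ∃ k : ℤ, Ord (fun p => (∏ i, vb π i (μ i)).1 p * c p) k) :
    ∃ Ψ : BB π →+ ℤ, ∀ f, Ord (fun p => f.1 p * c p) (Ψ f) := by
  choose Ψ hΨ using fun f : BB π => psi_ord hπ hc h f
  refine ⟨AddMonoidHom.mk' Ψ fun a b => ?_, fun f => hΨ f⟩
  refine Ord.unique (hΨ (a + b)) ?_
  have h1 : (fun p => (a + b).1 p * c p) = (fun p => a.1 p * c p) + fun p => b.1 p * c p := by
    funext p
    show (a.1 p + b.1 p) * c p = a.1 p * c p + b.1 p * c p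
    rw [add_mul]
  rw [h1]
  exact Ord.add (bdP_mul (bb_bd hπ a) hc) (bdP_mul (bb_bd hπ b) hc) (hΨ a) (hΨ b)

/-- The mean values of `f ^ 2 (1 - c)` and of `f ^ 2 (1 + c)` are not negative. -/
theorem Psi_le {π : (i : Fin r) → GSys (n i)} (hπ : ∀ i, Tempered (π i)) {c : Pr → ℝ}
    (hc : ∀ p, |c p| ≤ 1) {E Ψ : BB π →+ ℤ} (hE : ∀ f, Ord f.1 (E f))
    (hΨ : ∀ f, Ord (fun p => f.1 p * c p) (Ψ f)) (f : BB π) : |Ψ (f * f)| ≤ E (f * f) := by
  have hcb : BdP c := ⟨1, hc⟩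
  have b1 := bb_bd hπ (f * f)
  have b2 : BdP fun p => (f * f).1 p * c p := bdP_mul b1 hcb
  have h1 : MeanP (f * f).1 (E (f * f)) := Ord.meanP (hE (f * f))
  have h2 : MeanP (fun p => (f * f).1 p * c p) (Ψ (f * f)) := Ord.meanP (hΨ (f * f))
  have h3 := (MeanP.add b1 b2 h1 h2).nonneg fun p => by
    show 0 ≤ (f * f).1 p + (f * f).1 p * c p
    have h4 : 0 ≤ (f * f).1 p := mul_self_nonneg (f.1 p)
    have h5 := (abs_le.1 (hc p)).1
    nlinarith
  have h6 := (MeanP.add b1 (b2.const_mul (-1)) h1 (h2.const_mul (-1))).nonneg fun p => by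
    show 0 ≤ (f * f).1 p + (-1) * ((f * f).1 p * c p)
    have h4 : 0 ≤ (f * f).1 p := mul_self_nonneg (f.1 p)
    have h5 := (abs_le.1 (hc p)).2
    nlinarith
  rw [abs_le]
  constructor
  · have h7 : (-(E (f * f) : ℝ)) ≤ (Ψ (f * f) : ℝ) := by linarith
    exact_mod_cast h7
  · have h7 : ((Ψ (f * f) : ℤ) : ℝ) ≤ (E (f * f) : ℝ) := by linarith
    exact_mod_cast h7

/-- The functional of the twist by `e`. -/
theorem exists_twist {π : (i : Fin r) → GSys (n i)} (hπ : ∀ i, Tempered (π i)) {e : Pr → ℂ}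
    (he : ∀ p, ‖e p‖ = 1)
    (hM : ∀ (μ : (i : Fin r) → Fin (n i) → ℤ) (m : (i : Fin r) → Wt (n i) →₀ ℤ), Irrs μ m →
      MeroAtT π m e) : ∃ Ψ : BB π →+ ℤ, ∀ f, Ord (fun p => f.1 p * (e p).re) (Ψ f) := by
  refine exists_Psi hπ ⟨1, fun p => ?_⟩ fun μ => ?_
  · rw [← he p]
    exact Complex.abs_re_le_norm _
  · have hm : Irrs (fun i => (μ i).1) fun i => (chi (μ i)).coeff := fun i => chi_irr (μ i)
    obtain ⟨k, hk⟩ := exists_poleOrderT hπ he (hM _ _ hm)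
    exact ⟨k, ord_of_poleOrderT hπ he (AnF_trc hπ μ hm) hk⟩

end Pool.Agent.EEAP
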