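import Pool.Agent.W_eea520p_h56.Main
import Pool.Agent.W_eea520p_h53.TwAbs
import Pool.Agent.W_eea520p_h53.TwPsi

/-!
# Twists of tuples of systems by unimodular functions (MP_eea520_nt)
-/

set_option autoImplicit false

namespace Pool.Agent.EEAP

open Filter Topology Pool.Agent.EEA520 Pool.Agent.EEAN Pool.Agent.EEAG1

variable {r : ℕ} {n : Fin r → ℕ}

/-- (T) The twist: `exists_twist`, `Psi_le`, `tw_val` (with the set `S` and the matching as in
`main_C`). -/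
theorem main_T (hn : ∀ i, 1 ≤ n i) {π : (i : Fin r) → GSys (n i)} (hπ : ∀ i, Tempered (π i))
    (hST : ∀ (i : Fin r) (μ : Fin (n i) → ℤ) (m : Wt (n i) →₀ ℤ), IsIrr 0 μ m → μ ≠ 0 →
      PoleOrder (π i) m 1 0)
    (hM : ∀ (μ : (i : Fin r) → Fin (n i) → ℤ) (m : (i : Fin r) → Wt (n i) →₀ ℤ), Irrs μ m →
      MeroAtP π m 1) {e : Pr → ℂ} (he : ∀ p, ‖e p‖ = 1)
    (hMe : ∀ (μ : (i : Fin r) → Fin (n i) → ℤ) (m : (i : Fin r) → Wt (n i) →₀ ℤ), Irrs μ m →
      MeroAtT π m e) :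
    ∃ k : ℤ, |k| ≤ 1 ∧
      ∀ (μ : (i : Fin r) → Fin (n i) → ℤ) (m : (i : Fin r) → Wt (n i) →₀ ℤ), Irrs μ m →
        ∀ a : ℤ, PoleOrderP π m 1 a → PoleOrderT π m e (k * a) := by
  obtain ⟨E, hE⟩ := exists_E hπ hM
  obtain ⟨Ψ, hΨ⟩ := exists_twist hπ he hMe
  have hle : ∀ f, |Ψ (f * f)| ≤ E (f * f) := fun f =>
    Psi_le hπ (fun p => by
      rw [← he p]
      exact Complex.abs_re_le_norm _) hE hΨ f
  have hpos := E_nonneg hE
  have h1 := E_one hE
  have hfam := fun k => fam_vb hπ hST hE k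
  obtain ⟨S, hS1, hS2⟩ := exists_maximal
    (fun k l => E (vb π k (dst (n k)) * vb π l (dst (n l))) ≠ 0)
    (by
      intro k l h
      rw [mul_comm]
      exact h)
  have hind : ∀ i : ∀ k, Dm (n k), (∀ k, k ∉ S → i k = (basDm (n k)).z) →
      i ≠ (fun k => (basDm (n k)).z) → E (∏ k, vb π k (i k)) = 0 := by
    intro i hi hne
    refine indep_of_pairs hpos h1 (fun k => pieDm (hn k)) hfam S ?_ i hi hne
    intro k hk l hl hkl
    rw [pieDm_st, pieDm_st]
    exact not_not.1 (hS1 k hk l hl hkl)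
  have hmatch : ∀ k, k ∉ S → ∃ k' ∈ S, ∀ i, ∃ i', Ae E (vb π k i) (vb π k' i') := by
    intro k hk
    obtain ⟨l, hl, hkl⟩ := hS2 k hk
    refine ⟨l, hl, fun κ => ?_⟩
    obtain ⟨i', hi'⟩ := pair_one hpos (pieDm (hn l)) (pieDm (hn k)) (hfam l) (hfam k)
      (by
        rw [pieDm_st, pieDm_st, mul_comm]
        exact hkl) κ
    have h3 := (match_sign hpos (hfam l) (hfam k) (i := i') (j := κ)
      (by rw [hi']; exact one_ne_zero)).2
    rw [hi', one_smul] at h3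
    exact ⟨i', h3.symm⟩
  refine ⟨Ψ 1, ?_, fun μ m hm a ha => ?_⟩
  · have h2 := hle 1
    rw [mul_one, h1] at h2
    exact h2
  · obtain ⟨ν, hν⟩ := exists_dm hm
    have hm' : Irrs (fun k => (ν k).1) m := by
      intro k
      show IsIrr 0 (ν k).1 (m k)
      rw [hν k]
      exact hm k
    obtain ⟨k', hk'⟩ := exists_poleOrderT hπ he (hMe μ m hm)
    have h2 : Ψ (∏ i, vb π i (ν i)) = k' :=
      (hΨ _).unique (ord_of_poleOrderT hπ he (AnF_trc hπ ν hm') hk')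
    have h3 : E (∏ i, vb π i (ν i)) = a := by
      rw [← pt_zero] at ha
      exact val_of_poleOrder hπ (t := 0) (Et := E) (fun f => ord_cw_zero hE f) ν hm' ha
    have h4 := tw_val hle h1 (fun k => pieDm (hn k)) hfam S hind hmatch ν
    rw [h2, h3] at h4
    rw [← h4]
    exact hk'

end Pool.Agent.EEAP
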